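import Pool.Agent.H529.F.FDefs

/-!
# Tilted weights
-/

set_option autoImplicit false

open Finset

namespace Pool.Agent.H277.F

open Pool.Agent.H529.F Pool.Agent.H529.D
open Pool.Agent.H95R2.BG.Cert (look)

theorem vwq_lt (g : ℕ → ℕ) (A B X c : ℕ) (h : c < X) :
    vwq g A B X c = (g c * g c * (look A 24 (c % 64) * look B 24 (c / 64))) / 2 ^ 44 + 1 := by
  unfold vwq
  have h1 : Nat.ble (Nat.add c 1) X = true := by
    rw [Nat.ble_eq]
    exact h
  rw [h1]
  simp only [cond_true]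
  show Nat.shiftRight (g c * g c * (look A 24 (c % 64) * look B 24 (c / 64))) 44 + 1 = _
  rw [show Nat.shiftRight (g c * g c * (look A 24 (c % 64) * look B 24 (c / 64))) 44 =
    (g c * g c * (look A 24 (c % 64) * look B 24 (c / 64))) >>> 44 from rfl,
    Nat.shiftRight_eq_div_pow]

theorem vwq_ge (g : ℕ → ℕ) (A B X c : ℕ) (h : ¬ c < X) : vwq g A B X c = g c * g c := by
  unfold vwq
  have h1 : Nat.ble (Nat.add c 1) X = false := by
    rw [← Bool.not_eq_true]
    intro h2
    rw [Nat.ble_eq] at h2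
    exact h h2
  rw [h1]
  rfl

theorem one_factor (g : ℕ → ℕ) (A B X nn dd : ℕ) (hn : 0 < nn) (hd : nn ≤ dd)
    (hA : ∀ i, i < 64 → 4194304 * nn ^ (i + 1) ≤ look A 24 i * dd ^ (i + 1))
    (hB : ∀ j, 64 * j < X → 4194304 * nn ^ (64 * j) ≤ look B 24 j * dd ^ (64 * j)) (c : ℕ) :
    (g c : ℝ) ^ 2 * ((nn : ℝ) / dd) ^ (if c < X then c + 1 else 0) ≤ (vwq g A B X c : ℝ) := by
  have hd0 : (0 : ℝ) < dd := by
    have : 0 < dd := by omega
    exact_mod_cast this
  by_cases h : c < X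
  · rw [if_pos h, vwq_lt g A B X c h]
    have e : c + 1 = (c % 64 + 1) + 64 * (c / 64) := by omega
    have h1 := hA (c % 64) (Nat.mod_lt _ (by norm_num))
    have h2 := hB (c / 64) (by omega)
    have h3 : (4194304 : ℝ) * ((nn : ℝ) / dd) ^ (c % 64 + 1) ≤ (look A 24 (c % 64) : ℝ) := by
      rw [div_pow, ← mul_div_assoc, div_le_iff₀ (by positivity)]
      exact_mod_cast h1
    have h4 : (4194304 : ℝ) * ((nn : ℝ) / dd) ^ (64 * (c / 64)) ≤ (look B 24 (c / 64) : ℝ) := by
      rw [div_pow, ← mul_div_assoc, div_le_iff₀ (by positivity)]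
      exact_mod_cast h2
    have h5 : (17592186044416 : ℝ) * ((nn : ℝ) / dd) ^ (c + 1) ≤
        (look A 24 (c % 64) : ℝ) * (look B 24 (c / 64) : ℝ) := by
      have h6 := mul_le_mul h3 h4 (by positivity) (by positivity)
      rw [e, pow_add]
      refine le_trans (le_of_eq ?_) h6
      ring
    have h6 : ((g c * g c * (look A 24 (c % 64) * look B 24 (c / 64)) : ℕ) : ℝ) ≤
        (((g c * g c * (look A 24 (c % 64) * look B 24 (c / 64))) / 2 ^ 44 + 1 : ℕ) : ℝ) *
          2 ^ 44 := by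
      have h7 := Nat.lt_div_mul_add (a := g c * g c * (look A 24 (c % 64) * look B 24 (c / 64)))
        (b := 2 ^ 44) (by positivity)
      have h8 : g c * g c * (look A 24 (c % 64) * look B 24 (c / 64)) ≤
          ((g c * g c * (look A 24 (c % 64) * look B 24 (c / 64))) / 2 ^ 44 + 1) * 2 ^ 44 := by
        rw [Nat.add_mul, Nat.one_mul]
        exact h7.le
      exact_mod_cast h8
    have h7 : (g c : ℝ) ^ 2 * (17592186044416 * ((nn : ℝ) / dd) ^ (c + 1)) ≤
        (g c : ℝ) ^ 2 * ((look A 24 (c % 64) : ℝ) * (look B 24 (c / 64) : ℝ)) :=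
      mul_le_mul_of_nonneg_left h5 (by positivity)
    have h8 : (g c : ℝ) ^ 2 * ((nn : ℝ) / dd) ^ (c + 1) * 2 ^ 44 ≤
        (((g c * g c * (look A 24 (c % 64) * look B 24 (c / 64))) / 2 ^ 44 + 1 : ℕ) : ℝ) *
          2 ^ 44 := by
      refine le_trans (le_of_eq ?_) (le_trans h7 (le_trans (le_of_eq ?_) h6))
      · norm_num
        ring
      · push_cast
        ring
    exact le_of_mul_le_mul_right h8 (by positivity)
  · rw [if_neg h, vwq_ge g A B X c h, pow_zero, mul_one]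
    push_cast
    rw [pow_two]

theorem ft : S_T := by
  intro g A B X nn dd hn hd hA hB
  have hn0 : (0 : ℝ) < nn := by exact_mod_cast hn
  have hd0 : (0 : ℝ) < dd := by
    have : 0 < dd := by omega
    exact_mod_cast this
  constructor
  · intro K nf c hc
    have h1 : ∏ j, ((g (c j) : ℝ) ^ 2 * ((nn : ℝ) / dd) ^ (if c j < X then c j + 1 else 0)) ≤
        ∏ j, (vwq g A B X (c j) : ℝ) :=
      Finset.prod_le_prod (fun j _ => by positivity)
        fun j _ => one_factor g A B X nn dd hn hd hA hB (c j)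
    rw [Finset.prod_mul_distrib, Finset.prod_pow, Finset.prod_pow_eq_pow_sum] at h1
    have hq1 : (nn : ℝ) / dd ≤ 1 := by
      rw [div_le_one hd0]
      exact_mod_cast hd
    have h2 : ((nn : ℝ) / dd) ^ nf ≤
        ((nn : ℝ) / dd) ^ (∑ j, if c j < X then c j + 1 else 0) :=
      pow_le_pow_of_le_one (by positivity) hq1 hc
    have h3 : (∏ j, (g (c j) : ℝ)) ^ 2 * ((nn : ℝ) / dd) ^ nf ≤ ∏ j, (vwq g A B X (c j) : ℝ) :=
      (mul_le_mul_of_nonneg_left h2 (by positivity)).trans h1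
    have h4 : ((dd : ℝ) / nn) ^ nf * ((nn : ℝ) / dd) ^ nf = 1 := by
      rw [← mul_pow, div_mul_div_cancel₀ hn0.ne', div_self hd0.ne', one_pow]
    calc (∏ j, (g (c j) : ℝ)) ^ 2 =
        ((dd : ℝ) / nn) ^ nf * ((∏ j, (g (c j) : ℝ)) ^ 2 * ((nn : ℝ) / dd) ^ nf) := by
          rw [mul_left_comm, h4, mul_one]
      _ ≤ _ := mul_le_mul_of_nonneg_left h3 (by positivity)
  · intro hA2 hB2 c
    by_cases h : c < X
    · rw [vwq_lt g A B X c h]
      refine Nat.add_le_add_right ?_ 1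
      have h1 := hA2 (c % 64) (Nat.mod_lt _ (by norm_num))
      have h2 := hB2 (c / 64) (by omega)
      have h3 : look A 24 (c % 64) * look B 24 (c / 64) ≤ 2 ^ 44 := by
        refine (Nat.mul_le_mul h1 h2).trans (le_of_eq ?_)
        norm_num
      refine Nat.div_le_of_le_mul ?_
      rw [mul_comm (2 ^ 44)]
      exact Nat.mul_le_mul_left _ h3
    · rw [vwq_ge g A B X c h]
      exact Nat.le_succ _

end Pool.Agent.H277.F
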